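import Pool.Agent.N586.AN.Stm2
import Pool.Agent.Y951.TU.Fam

/-!
# Project JT: simultaneous normality of tuples of elements of the field of a random algebraic number,
up to `(log H) ^ (1 + δ)` digits. Statements.
-/

set_option autoImplicit false

namespace Pool.Agent.N586.JT

open Finset Polynomial Filter MeasureTheory
open Pool.Agent.Y933.KG (pol Om Alg)
open Pool.Agent.Y933.KD (wd WS ci Leb)
open Pool.Agent.Y951.TU (lin hat)
open Pool.Agent.N586.AN (S_TOT2)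

/-- J1: normality in all windows from the probabilities of the words, with any saving -/
def S_BW : Prop := ∀ (b w : ℕ) (ε η : ℝ), 2 ≤ b → 1 ≤ w → 0 < ε → 0 < η →
    ∃ κ : ℝ, 0 < κ ∧ κ ≤ 1 ∧ ∃ c : ℝ, 0 < c ∧ ∃ τ0 : ℝ, ∀ τ : ℝ, τ0 ≤ τ → ∀ T : ℝ, 1 ≤ T →
    ∀ P : Measure ℝ, IsProbabilityMeasure P →
    (∀ n a : ℕ, (n : ℝ) ≤ T → a < b ^ ⌊κ * τ⌋₊ →
      |P.real {x | wd b ⌊κ * τ⌋₊ n x = a} - Leb.real {x | wd b ⌊κ * τ⌋₊ n x = a}| ≤
        Real.exp (-(η * τ))) →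
    ∃ U : Set ℝ, MeasurableSet U ∧ P.real U ≤ T * Real.exp (-(c * τ)) ∧
      ∀ x, x ∉ U → ∀ k j s N : ℕ, 1 ≤ k → k ≤ w → j < b ^ k → (s : ℝ) + N ≤ T →
        |WS b k (ci b k j) s N x| ≤ ε * N + τ

open Classical in
/-- all digit matrices with `k ≤ w` columns have the right frequency in all windows of the first `L`
digits of the tuple `y` in base `b`, up to `ε N + E` -/
def NwT {r : ℕ} (b w : ℕ) (L ε E : ℝ) (y : Fin r → ℝ) : Prop :=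
  ∀ (k s N : ℕ) (D : Fin r → ℕ), 1 ≤ k → k ≤ w → (∀ j, D j < b ^ k) → (s : ℝ) + N ≤ L →
    |(((Finset.range N).filter (fun i => ∀ j, wd b k (s + i) (y j) = D j)).card : ℝ) -
      N / ((b : ℝ) ^ k) ^ r| ≤ ε * N + E

/-- J2: joint normality of tuples from small Fourier coefficients -/
def S_BT : Prop := ∀ (b w r : ℕ) (ε : ℝ), 2 ≤ b → 1 ≤ r → 0 < ε → ∃ c : ℝ, 0 < c ∧ ∃ τ0 : ℝ,
    ∀ τ : ℝ, τ0 ≤ τ → ∀ T : ℝ, 1 ≤ T → ∀ P : Measure (Fin r → ℝ), IsProbabilityMeasure P →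
    (∀ (n : ℕ) (h : Fin r → ℤ), (n : ℝ) ≤ T → h ≠ 0 → (∀ j, |(h j : ℝ)| ≤ Real.exp τ) →
      ‖hat (lin r) P (fun j => h j * (b : ℤ) ^ n)‖ ≤ Real.exp (-τ)) →
    ∃ U : Set (Fin r → ℝ), MeasurableSet U ∧ P.real U ≤ T * Real.exp (-(c * τ)) ∧
      ∀ y, y ∉ U → NwT b w T ε τ y

/-- the heights of the polynomials and of the denominators are at most `exp ((log H) ^ β)`, the
degrees are smaller than `q + 2`, and no nontrivial integral combination of the polynomials is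
constant -/
def SmlT (q : ℕ) (β : ℝ) (H : ℕ) {r : ℕ} (f : Fin r → ℤ[X]) (m : Fin r → ℕ) : Prop :=
  (∀ j, (f j).natDegree < q + 2) ∧
    (∀ j i, |((f j).coeff i : ℝ)| ≤ Real.exp ((Real.log H) ^ β)) ∧ (∀ j, 1 ≤ m j) ∧
    (∀ j, (m j : ℝ) ≤ Real.exp ((Real.log H) ^ β)) ∧
    ∀ c : Fin r → ℤ, c ≠ 0 → 1 ≤ (∑ j, C (c j) * f j).natDegree

open Classical in
/-- J3: nearly all pairs are simultaneously normal, for all tuples at the same time -/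
def S_NT : Prop := ∀ (q : ℕ) (δ β : ℝ), 0 < δ → 0 < β → 2 * δ + β < 1 →
    ∀ (B w r : ℕ) (ε : ℝ), 1 ≤ r → 0 < ε → ∃ H0 : ℕ, ∀ H : ℕ, H0 ≤ H →
    (((Om q H).filter (fun p => ¬ ∀ (b : ℕ) (f : Fin r → ℤ[X]) (m : Fin r → ℕ), 2 ≤ b → b ≤ B →
      SmlT q β H f m → NwT b w ((Real.log H) ^ (1 + δ)) ε (ε * Real.log H)
        (fun j => aeval p.2.2 (f j) / (m j : ℝ)))).card : ℝ) ≤
      (H : ℝ) ^ (q + 3) * Real.exp (-(2 * (Real.log H) ^ β))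

end Pool.Agent.N586.JT
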