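import Pool.Agent.N586.JT.Stm
import Pool.Agent.Y951.TU.Norm
import Pool.Agent.Y951.TU.Power

/-!
# Project JT: joint normality of tuples from small Fourier coefficients
-/

set_option autoImplicit false

namespace Pool.Agent.N586.JT

open Finset Polynomial Filter MeasureTheory
open Pool.Agent.Y933.KD (wd WS ci Leb wd_eq_iff WS_ci measurable_wd)
open Pool.Agent.Y951.TU (lin hat lin_apply measurable_lin Cube hat_Cube mix tw Psi words mem_words
  mix_surj mix_inj mix_lt tw_lt wd_Psi measurable_Psi Cube_tw Leb_wd Ev integral_ind test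
  two_le_prod prod_pos')

/-- the frequencies -/
def Bt_q (b r n : ℕ) (j : Fin r) : Fin r → ℤ := fun j' => (b : ℤ) ^ n * (Pi.single j 1 : Fin r → ℤ) j'

lemma Bt_sum (b r n : ℕ) (h : Fin r → ℤ) : ∑ i, h i • Bt_q b r n i = fun j => h j * (b : ℤ) ^ n := by
  funext j
  rw [Finset.sum_apply, Finset.sum_eq_single j]
  · simp [Bt_q]
  · intro i _ hij
    simp only [Bt_q, Pi.smul_apply, smul_eq_mul]
    rw [Pi.single_eq_of_ne (Ne.symm hij)]
    ring
  · intro hj
    exact absurd (mem_univ j) hj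

lemma Bt_ne (b r n : ℕ) (hb : 1 ≤ b) (i : Fin r) (h : ℤ) (hh : h ≠ 0) : h • Bt_q b r n i ≠ 0 := by
  intro he
  have h1 := congrFun he i
  simp only [Bt_q, Pi.smul_apply, smul_eq_mul, Pi.single_eq_same, mul_one, Pi.zero_apply] at h1
  rcases mul_eq_zero.1 h1 with h2 | h2
  · exact hh h2
  · have : (b : ℤ) ≠ 0 := by exact_mod_cast (by omega : b ≠ 0)
    exact pow_ne_zero n this h2

lemma Bt_lin (b r n : ℕ) (j : Fin r) (x : Fin r → ℝ) :
    lin r (Bt_q b r n j) x = (b : ℝ) ^ n * x j := by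
  rw [lin_apply, Finset.sum_eq_single j]
  · simp [Bt_q]
  · intro i _ hij
    simp only [Bt_q]
    rw [Pi.single_eq_of_ne hij]
    simp
  · intro hj
    exact absurd (mem_univ j) hj

lemma Bt_Ev {b r : ℕ} (hb : 1 ≤ b) (n l : ℕ) (V : Fin r → ℕ) :
    {x : Fin r → ℝ | tw (fun _ => b) l (fun _ => n) x = V} =
      Ev (lin r) (Bt_q b r n) (fun j => (V j : ℝ) / (b : ℝ) ^ l)
        (fun j => ((V j : ℝ) + 1) / (b : ℝ) ^ l) := by
  ext x
  unfold Ev
  simp only [Set.mem_ofPred_eq, Bt_lin]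
  constructor
  · intro h j
    exact (wd_eq_iff hb _).1 (congrFun h j)
  · intro h
    funext j
    exact (wd_eq_iff hb _).2 (h j)

/-- the comparison of the measure with the uniform measure on words -/
lemma Bt_word {b r : ℕ} (hb : 2 ≤ b) (P : Measure (Fin r → ℝ)) [IsProbabilityMeasure P] {τ : ℝ}
    (hτ : 0 ≤ τ) (n l : ℕ) (hP : ∀ h : Fin r → ℤ, h ≠ 0 → (∀ j, |(h j : ℝ)| ≤ Real.exp τ) →
      ‖hat (lin r) P (fun j => h j * (b : ℤ) ^ n)‖ ≤ Real.exp (-τ))
    (V : Fin r → ℕ) (hV : ∀ j, V j < b ^ l) :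
    |P.real {x : Fin r → ℝ | tw (fun _ => b) l (fun _ => n) x = V} -
      (Cube r).real {x : Fin r → ℝ | tw (fun _ => b) l (fun _ => n) x = V}| ≤
      (3 ^ r + 29 * r) * Real.exp (-(τ / (3 * r + 4))) := by
  have hb1 : 1 ≤ b := by omega
  have hbR : (1 : ℝ) ≤ b := by exact_mod_cast hb1
  set X : ℝ := Real.exp (τ / (3 * r + 4)) with hX
  have hr0 : (0 : ℝ) ≤ r := Nat.cast_nonneg r
  have hX1 : 1 ≤ X := Real.one_le_exp (by positivity)
  have hX0 : 0 < X := by linarith
  set K : ℕ := ⌊X⌋₊ with hKdef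
  have hK : 0 < K := Nat.floor_pos.2 hX1
  have hK1 : (K : ℝ) ≤ X := Nat.floor_le hX0.le
  have hKR1 : (1 : ℝ) ≤ K := by exact_mod_cast hK
  have hK2 : X ≤ 2 * K := by
    have h1 := Nat.lt_floor_add_one X
    rw [← hKdef] at h1
    linarith
  have hKR : (0 : ℝ) < K := by linarith
  have hτX : Real.exp τ = X ^ (3 * r + 4) := by
    rw [hX, ← Real.exp_nat_mul]
    congr 1
    push_cast
    field_simp
  have hK3 : (K : ℝ) ^ 3 ≤ X ^ 3 := pow_le_pow_left₀ hKR.le hK1 3
  rw [Bt_Ev hb1]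
  have key := test hK (φ := lin r) measurable_lin P (Cube r) hat_Cube (Bt_q b r n)
    (fun i h hh => Bt_ne b r n hb1 i h hh) (Real.exp (-τ))
    (by
      intro h hh hne
      rw [Bt_sum] at hne ⊢
      refine hP h ?_ fun j => ?_
      · rintro rfl
        apply hne
        funext j
        simp
      · have h1 : |(h j : ℝ)| ≤ (K : ℝ) ^ 3 := by exact_mod_cast hh j
        refine (h1.trans hK3).trans ?_
        rw [hτX]
        exact pow_le_pow_right₀ hX1 (by omega)) (Real.exp_pos _).le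
    (fun j => (V j : ℝ) / (b : ℝ) ^ l) (fun j => ((V j : ℝ) + 1) / (b : ℝ) ^ l)
    (fun j => by positivity) (fun j => by
      rw [div_le_one (by positivity)]
      exact_mod_cast hV j)
  rw [integral_ind measurable_lin, integral_ind measurable_lin] at key
  refine key.trans ?_
  have hτ1 : Real.exp (-τ) = (X ^ (3 * r + 4))⁻¹ := by rw [Real.exp_neg, hτX]
  have hτ2 : Real.exp (-(τ / (3 * r + 4))) = X⁻¹ := by rw [Real.exp_neg]
  rw [hτ2]
  have h1 : (2 * (K : ℝ) ^ 3 + 1) ^ r * Real.exp (-τ) ≤ 3 ^ r * X⁻¹ := by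
    have h2 : 2 * (K : ℝ) ^ 3 + 1 ≤ 3 * X ^ 3 := by
      have : 1 ≤ X ^ 3 := one_le_pow₀ hX1
      linarith
    calc (2 * (K : ℝ) ^ 3 + 1) ^ r * Real.exp (-τ)
        ≤ (3 * X ^ 3) ^ r * Real.exp (-τ) := by gcongr
      _ = 3 ^ r * (X ^ 4)⁻¹ := by
          rw [hτ1, mul_pow, ← pow_mul, pow_add]
          field_simp
      _ ≤ 3 ^ r * X⁻¹ := by
          refine mul_le_mul_of_nonneg_left ?_ (by positivity)
          apply inv_anti₀ hX0
          calc X = X ^ 1 := (pow_one X).symm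
            _ ≤ X ^ 4 := pow_le_pow_right₀ hX1 (by norm_num)
  have h2 : 12 / (K : ℝ) ≤ 24 * X⁻¹ := by
    rw [div_le_iff₀ hKR]
    have h4 : 24 * X⁻¹ * K = 12 * ((2 * K) / X) := by field_simp; ring
    rw [h4]
    have h5 : 1 ≤ 2 * (K : ℝ) / X := by rw [le_div_iff₀ hX0]; linarith
    linarith
  have h3 : Real.exp (-τ) ≤ X⁻¹ := by
    rw [hτ1]
    apply inv_anti₀ hX0
    calc X = X ^ 1 := (pow_one X).symm
      _ ≤ X ^ (3 * r + 4) := pow_le_pow_right₀ hX1 (by omega)
  have h4 : (r : ℝ) * (12 / K + 5 * Real.exp (-τ)) ≤ r * (29 * X⁻¹) := by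
    refine mul_le_mul_of_nonneg_left ?_ hr0
    linarith
  calc (2 * (K : ℝ) ^ 3 + 1) ^ r * Real.exp (-τ) + r * (12 / K + 5 * Real.exp (-τ))
      ≤ 3 ^ r * X⁻¹ + r * (29 * X⁻¹) := add_le_add h1 h4
    _ = (3 ^ r + 29 * r) * X⁻¹ := by ring

theorem bt (h : S_BW) : S_BT := by
  classical
  intro b w r ε hb hr hε
  have hb1 : 1 ≤ b := by omega
  set bb : Fin r → ℕ := fun _ => b with hbb
  have hbb1 : ∀ j, 1 ≤ bb j := fun _ => hb1
  have hbb2 : ∀ j, 2 ≤ bb j := fun _ => hb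
  set η : ℝ := 1 / (2 * (3 * r + 4)) with hη
  have hr0 : (0 : ℝ) ≤ r := Nat.cast_nonneg r
  have hη0 : 0 < η := by positivity
  obtain ⟨κ, hκ0, hκ1, c, hc, τ0, hmain⟩ := h (∏ j, bb j) (max w 1) ε η (two_le_prod hr hbb2)
    (le_max_right _ _) hε hη0
  -- large `τ`
  set A : ℝ := 3 ^ r + 29 * r with hA
  have hA1 : 1 ≤ A := by
    have : (1 : ℝ) ≤ 3 ^ r := one_le_pow₀ (by norm_num)
    rw [hA]
    nlinarith
  refine ⟨c, hc, max τ0 (Real.log A / η), fun τ hτ T hT P hPp hF => ?_⟩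
  have hτ0 : τ0 ≤ τ := (le_max_left _ _).trans hτ
  have hτA : Real.log A / η ≤ τ := (le_max_right _ _).trans hτ
  have hτ1 : 0 ≤ τ := le_trans (div_nonneg (Real.log_nonneg hA1) hη0.le) hτA
  have hτ2 : A * Real.exp (-(τ / (3 * r + 4))) ≤ Real.exp (-(η * τ)) := by
    have h1 : Real.log A ≤ η * τ := by
      rw [div_le_iff₀ hη0] at hτA
      linarith
    have h2 : A ≤ Real.exp (η * τ) := by
      rw [← Real.exp_log (show 0 < A by linarith)]
      exact Real.exp_le_exp.2 h1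
    have h3 : τ / (3 * r + 4) = 2 * (η * τ) := by
      rw [hη]
      field_simp
    calc A * Real.exp (-(τ / (3 * r + 4))) ≤ Real.exp (η * τ) * Real.exp (-(τ / (3 * r + 4))) :=
          mul_le_mul_of_nonneg_right h2 (Real.exp_pos _).le
      _ = Real.exp (-(η * τ)) := by
          rw [← Real.exp_add, h3]
          congr 1
          ring
  set J : ℕ := ⌈T⌉₊ + ⌈τ⌉₊ + max w 1 + 1 with hJ
  have hTJ : T ≤ (⌈T⌉₊ : ℝ) := Nat.le_ceil T
  have hprob : IsProbabilityMeasure (P.map (Psi bb J (fun _ => 0))) :=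
    Measure.isProbabilityMeasure_map (measurable_Psi bb J _).aemeasurable
  set l : ℕ := ⌊κ * τ⌋₊ with hl
  have hlτ : l ≤ ⌈τ⌉₊ := by
    have h1 : (l : ℝ) ≤ κ * τ := Nat.floor_le (by positivity)
    have h2 : (l : ℝ) ≤ ⌈τ⌉₊ := by
      refine h1.trans (le_trans ?_ (Nat.le_ceil τ))
      nlinarith
    exact_mod_cast h2
  have hq : 1 ≤ ∏ j, bb j := prod_pos' hbb1
  obtain ⟨U', hU', hPU, hx⟩ := hmain τ hτ0 T hT (P.map (Psi bb J (fun _ => 0))) hprob (by
    intro n a hn ha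
    have hnJ : n + l ≤ J := by
      have h1 : (n : ℝ) ≤ ⌈T⌉₊ := hn.trans hTJ
      have h2 : n ≤ ⌈T⌉₊ := by exact_mod_cast h1
      omega
    obtain ⟨V, hV, hVa⟩ := mix_surj hbb1 l a ha
    have hm : MeasurableSet {x : ℝ | wd (∏ j, bb j) l n x = a} :=
      measurableSet_eq_fun (measurable_wd _ _ _) measurable_const
    rw [map_measureReal_apply (measurable_Psi bb J _) hm]
    have h1 : Psi bb J (fun _ => 0) ⁻¹' {x : ℝ | wd (∏ j, bb j) l n x = a} =
        {x : Fin r → ℝ | tw (fun _ => b) l (fun _ => n) x = V} := by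
      ext x
      simp only [Set.mem_preimage, Set.mem_ofPred_eq]
      rw [wd_Psi hbb1 hnJ, ← hVa]
      have e1 : (fun _ : Fin r => 0 + n) = fun _ : Fin r => n := by
        funext j
        exact zero_add n
      rw [e1]
      constructor
      · intro h2
        exact mix_inj hbb1 l _ _ (tw_lt hbb1 _ _ _) hV h2
      · intro h2
        rw [← h2]
    have h2 : Leb.real {x : ℝ | wd (∏ j, bb j) l n x = a} =
        (Cube r).real {x : Fin r → ℝ | tw (fun _ => b) l (fun _ => n) x = V} := by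
      rw [Leb_wd hq l n ha]
      exact (Cube_tw hbb1 l (fun _ => n) (mem_words.2 hV)).symm
    rw [h1, h2]
    exact (Bt_word hb P hτ1 n l (fun h' hh hh2 => hF n h' hn hh hh2) V hV).trans hτ2)
  refine ⟨Psi bb J (fun _ => 0) ⁻¹' U', measurable_Psi bb J _ hU', ?_, ?_⟩
  · rw [← map_measureReal_apply (measurable_Psi bb J _) hU']
    exact hPU
  · intro y hy k s N D hk hkw hD hsN
    have hDm : mix bb k D < (∏ j, bb j) ^ k := mix_lt hbb1 k D
    have h2 := hx _ hy k (mix bb k D) s N hk (hkw.trans (le_max_left _ _)) hDm hsN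
    rw [WS_ci hq] at h2
    have h3 : (range N).filter (fun i => wd (∏ j, bb j) k (s + i) (Psi bb J (fun _ => 0) y) =
        mix bb k D) = (range N).filter (fun i => ∀ j, wd b k (s + i) (y j) = D j) := by
      refine filter_congr fun i hi => ?_
      rw [mem_range] at hi
      have h4 : (s + i) + k ≤ J := by
        have h5 : ((s + N : ℕ) : ℝ) ≤ ⌈T⌉₊ := by
          push_cast
          exact hsN.trans hTJ
        have h6 : s + N ≤ ⌈T⌉₊ := by exact_mod_cast h5
        have h7 : w ≤ max w 1 := le_max_left _ _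
        omega
      rw [wd_Psi hbb1 h4]
      constructor
      · intro h5 j
        have h6 := mix_inj hbb1 k _ _ (tw_lt hbb1 _ _ _) hD h5
        have h7 := congrFun h6 j
        simp only [tw, zero_add] at h7
        exact h7
      · intro h5
        congr 1
        funext j
        simp only [tw, zero_add]
        exact h5 j
    rw [h3] at h2
    have h4 : (((∏ j, bb j : ℕ) : ℝ)) ^ k = ((b : ℝ) ^ k) ^ r := by
      rw [hbb]
      simp only [prod_const, card_univ, Fintype.card_fin]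
      push_cast
      rw [← pow_mul, ← pow_mul, mul_comm]
    rw [h4] at h2
    convert h2 using 4

end Pool.Agent.N586.JT
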