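import Pool.Agent.N586.JT.Stm
import Pool.Agent.Y933.KD.Norm2

/-!
# Project JT, J1: normality in all windows from the probabilities of the words

This follows `Pool.Agent.N586.RT.Blk` (helper586), with one base and the probabilities of the words
in the place of the Fourier coefficients. Written by helper340.
-/

set_option autoImplicit false

namespace Pool.Agent.N586.JT

open Finset Real MeasureTheory Filter Topology
open Pool.Agent.Y933.KD

/-- the probability of an event of words -/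
lemma bw_split (b ℓ s : ℕ) (hb : 1 ≤ b) (μ : Measure ℝ) [IsProbabilityMeasure μ] (pr : ℕ → Prop)
    [DecidablePred pr] : μ.real {x | pr (wd b ℓ s x)} =
      ∑ a ∈ (range (b ^ ℓ)).filter pr, μ.real {x | wd b ℓ s x = a} := by
  have e : {x | pr (wd b ℓ s x)} =
      ⋃ a ∈ (range (b ^ ℓ)).filter pr, {x | wd b ℓ s x = a} := by
    ext x
    simp only [Set.mem_ofPred_eq, Set.mem_iUnion, mem_filter, mem_range]
    constructor
    · intro h
      exact ⟨wd b ℓ s x, ⟨wd_lt hb ℓ s x, h⟩, rfl⟩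
    · rintro ⟨a, ⟨-, h⟩, rfl⟩
      exact h
  rw [e, measureReal_biUnion_finset]
  · intro a _ a' _ haa
    show Disjoint {x | wd b ℓ s x = a} {x | wd b ℓ s x = a'}
    rw [Set.disjoint_left]
    intro x hx hx'
    exact haa ((show wd b ℓ s x = a from hx).symm.trans hx')
  · intro a _
    exact measurable_wd b ℓ s (measurableSet_singleton a)

lemma bw_event {b ℓ s : ℕ} (hb : 1 ≤ b) (P : Measure ℝ) [IsProbabilityMeasure P] {Δ : ℝ}
    (hΔ : 0 ≤ Δ)
    (h : ∀ a, a < b ^ ℓ → |P.real {x | wd b ℓ s x = a} - Leb.real {x | wd b ℓ s x = a}| ≤ Δ)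
    (pr : ℕ → Prop) : P.real {x | pr (wd b ℓ s x)} ≤
      Leb.real {x | pr (wd b ℓ s x)} + (b : ℝ) ^ ℓ * Δ := by
  classical
  rw [bw_split b ℓ s hb P pr, bw_split b ℓ s hb Leb pr]
  have h1 : ∑ a ∈ (range (b ^ ℓ)).filter pr, P.real {x | wd b ℓ s x = a} ≤
      ∑ a ∈ (range (b ^ ℓ)).filter pr, (Leb.real {x | wd b ℓ s x = a} + Δ) := by
    refine sum_le_sum fun a ha => ?_
    rw [mem_filter, mem_range] at ha
    have := (abs_le.1 (h a ha.1)).2
    linarith
  refine h1.trans ?_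
  rw [sum_add_distrib, sum_const, nsmul_eq_mul]
  have h2 : (((range (b ^ ℓ)).filter pr).card : ℝ) ≤ (b : ℝ) ^ ℓ := by
    have : ((range (b ^ ℓ)).filter pr).card ≤ (range (b ^ ℓ)).card := card_filter_le _ _
    rw [card_range] at this
    exact_mod_cast this
  have h3 := mul_le_mul_of_nonneg_right h2 hΔ
  linarith

/-- **normality in all windows** -/
theorem bw : S_BW := by
  classical
  intro b w ε η hb2 hw hε hη
  have hb1 : 1 ≤ b := by omega
  have hbR : (1 : ℝ) ≤ b := by exact_mod_cast hb1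
  set lB : ℝ := log (b : ℝ) with hlB
  have hlB0 : 0 < lB := Real.log_pos (by exact_mod_cast (show 1 < b by omega))
  set κ : ℝ := min 1 (η / (2 * lB)) with hκ
  have hκ0 : 0 < κ := lt_min one_pos (by positivity)
  have hκ1 : κ ≤ 1 := min_le_left _ _
  have hκδ : κ * lB ≤ η / 2 := by
    have : κ ≤ η / (2 * lB) := min_le_right _ _
    calc κ * lB ≤ η / (2 * lB) * lB := by gcongr
      _ = η / 2 := by field_simp
  have hwR : (1 : ℝ) ≤ w := by exact_mod_cast hw
  set c0 : ℝ := 3 / 8 * (ε ^ 2 * κ / w ^ 2) with hc0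
  have hc00 : 0 < c0 := by positivity
  set C1 : ℝ := 2 * exp (2 * w ^ 2 + ε ^ 2 / (2 * w)) with hC1
  have hC10 : 0 < C1 := by positivity
  set c2 : ℝ := min c0 (η / 2) with hc2
  have hc20 : 0 < c2 := lt_min hc00 (by positivity)
  set nU : ℝ := (w + 1) * (b : ℝ) ^ w with hnU
  set C3 : ℝ := (nU * 2) * (C1 + 1) with hC3
  have hC30 : 0 ≤ C3 := by positivity
  -- large `τ`
  refine ⟨κ, hκ0, hκ1, c2 / 2, by positivity, max (max (((w : ℝ) + 1) / κ) (C3 / (c2 / 2))) 1, ?_⟩
  intro τ hτ0 T hT P hP hhat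
  have hτ1 : ((w : ℝ) + 1) / κ ≤ τ := (le_max_left _ _).trans ((le_max_left _ _).trans hτ0)
  have hτ2 : C3 / (c2 / 2) ≤ τ := (le_max_right _ _).trans ((le_max_left _ _).trans hτ0)
  have hτ3 : 1 ≤ τ := (le_max_right _ _).trans hτ0
  have ht0 : 0 < τ := by linarith
  have hκt : (w : ℝ) + 1 ≤ κ * τ := by
    rw [div_le_iff₀ hκ0] at hτ1
    linarith
  have hC3e : C3 ≤ Real.exp (c2 / 2 * τ) := by
    rw [div_le_iff₀ (by positivity)] at hτ2
    have := Real.add_one_le_exp (c2 / 2 * τ)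
    linarith
  set ℓ : ℕ := ⌊κ * τ⌋₊ with hℓ
  have hℓ1 : (ℓ : ℝ) ≤ κ * τ := Nat.floor_le (by positivity)
  have hℓ2 : κ * τ < ℓ + 1 := Nat.lt_floor_add_one _
  have hwℓ : w ≤ ℓ := by
    have : (w : ℝ) < ℓ + 1 := by linarith
    have : w < ℓ + 1 := by exact_mod_cast this
    omega
  -- the index set and the exceptional set
  set I : Finset ((ℕ × ℕ) × ℕ) := (((Finset.Icc 1 w) ×ˢ range (b ^ w)) ×ˢ
    range (⌊T⌋₊ + 1)).filter (fun q => q.1.2 < b ^ q.1.1 ∧ (q.2 : ℝ) ≤ T) with hI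
  set E : (ℕ × ℕ) × ℕ → Set ℝ := fun q => Dv b q.1.1 (ci b q.1.1 q.1.2) q.2
    (ℓ + 1 - q.1.1) (ε * ((ℓ + 1 - q.1.1 : ℕ) : ℝ)) with hE
  refine ⟨⋃ q ∈ I, E q, ?_, ?_, ?_⟩
  · exact MeasurableSet.biUnion (Finset.countable_toSet I) fun q _ => measurableSet_Dv _ _ _ _ _ _
  · have hone : ∀ q ∈ I, P.real (E q) ≤ (C1 + 1) * Real.exp (-(c2 * τ)) := by
      intro q hq
      rw [hI, mem_filter, mem_product, mem_product] at hq
      obtain ⟨⟨⟨hk, _⟩, _⟩, hjb, hsA⟩ := hq
      obtain ⟨⟨k, j⟩, s⟩ := q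
      simp only at hk hjb hsA ⊢
      rw [mem_Icc] at hk
      have hkR : (1 : ℝ) ≤ k := by exact_mod_cast hk.1
      have hkwR : (k : ℝ) ≤ w := by exact_mod_cast hk.2
      set L : ℕ := ℓ + 1 - k with hL
      have hL1 : 1 ≤ L := by omega
      have hLk : L + k ≤ ℓ + 1 := by omega
      have hLR : (L : ℝ) = ℓ + 1 - k := by
        rw [hL, Nat.cast_sub (by omega)]; push_cast; ring
      have hLκ : (L : ℝ) ≤ κ * τ := by rw [hLR]; linarith
      have hLlow : κ * τ - w ≤ L := by rw [hLR]; linarith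
      obtain ⟨φ, hφ⟩ := WS_inside (b := b) hb1 (k := k) (L := L) (ℓ := ℓ) hLk (ci b k j)
      have hEq : E ((k, j), s) = {x | ε * (L : ℝ) < |φ (wd b ℓ s x)|} := by
        rw [hE]
        ext x
        unfold Dv
        simp only [Set.mem_ofPred_eq]
        rw [hφ]
      have h1 := bw_event (b := b) (ℓ := ℓ) (s := s) hb1 P (Δ := Real.exp (-(η * τ)))
        (Real.exp_pos _).le (fun a ha => hhat s a hsA ha)
        (fun c => ε * (L : ℝ) < |φ c|)
      rw [← hEq] at h1
      have h2 := dev_Leb (b := b) (k := k) (c := j) hb1 hk.1 hjb s L hL1 hε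
      have hEq2 : E ((k, j), s) = Dv b k (ci b k j) s L (ε * L) := rfl
      rw [← hEq2] at h2
      -- the Lebesgue part
      have h3 : ε / k * √(L : ℝ) - ε ^ 2 * L / (2 * k ^ 2) ≤
          -(c0 * τ) + (2 * w ^ 2 + ε ^ 2 / (2 * w)) := by
        have h4 : ε / k * √(L : ℝ) ≤ ε * √(κ * τ) := by
          have h5 : ε / k ≤ ε := div_le_self hε.le hkR
          have h6 : √(L : ℝ) ≤ √(κ * τ) := Real.sqrt_le_sqrt hLκ
          exact mul_le_mul h5 h6 (Real.sqrt_nonneg _) hε.le
        have h5 := sqrt_le_lin (z := κ * τ) (η := ε / (8 * w ^ 2)) (by positivity) (by positivity)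
        have h6 : ε * √(κ * τ) ≤ ε ^ 2 * (κ * τ) / (8 * w ^ 2) + 2 * w ^ 2 := by
          calc ε * √(κ * τ) ≤ ε * (ε / (8 * w ^ 2) * (κ * τ) + 1 / (4 * (ε / (8 * w ^ 2)))) := by
                gcongr
            _ = ε ^ 2 * (κ * τ) / (8 * w ^ 2) + 2 * w ^ 2 := by
                field_simp
                ring
        have h7 : ε ^ 2 * (κ * τ - w) / (2 * w ^ 2) ≤ ε ^ 2 * L / (2 * k ^ 2) := by
          have h8 : 0 ≤ κ * τ - w := by linarith
          apply div_le_div₀ (by positivity)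
          · gcongr
          · positivity
          · gcongr
        have h9 : ε ^ 2 * (κ * τ - w) / (2 * w ^ 2) =
            ε ^ 2 * (κ * τ) / (2 * w ^ 2) - ε ^ 2 / (2 * w) := by
          field_simp
        have h10 : c0 * τ = 3 / 8 * (ε ^ 2 * (κ * τ) / w ^ 2) := by rw [hc0]; ring
        have h11 : ε ^ 2 * (κ * τ) / (8 * w ^ 2) - ε ^ 2 * (κ * τ) / (2 * w ^ 2) =
            -(3 / 8 * (ε ^ 2 * (κ * τ) / w ^ 2)) := by
          field_simp
          ring
        rw [h10]
        linarith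
      have h4 : Leb.real (E ((k, j), s)) ≤ C1 * Real.exp (-(c0 * τ)) := by
        refine h2.trans ?_
        rw [hC1, mul_assoc, ← Real.exp_add]
        refine mul_le_mul_of_nonneg_left (Real.exp_le_exp.2 ?_) (by norm_num)
        refine h3.trans (le_of_eq ?_)
        ring
      have h5 : (b : ℝ) ^ ℓ * Real.exp (-(η * τ)) ≤ Real.exp (-(η / 2 * τ)) := by
        have h6 : (b : ℝ) ^ ℓ ≤ Real.exp (η / 2 * τ) := by
          rw [← Real.exp_log (by positivity : (0 : ℝ) < (b : ℝ) ^ ℓ), Real.log_pow]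
          apply Real.exp_le_exp.2
          calc (ℓ : ℝ) * log b ≤ (κ * τ) * lB := by gcongr
            _ = τ * (κ * lB) := by ring
            _ ≤ τ * (η / 2) := by gcongr
            _ = η / 2 * τ := by ring
        calc (b : ℝ) ^ ℓ * Real.exp (-(η * τ)) ≤
            Real.exp (η / 2 * τ) * Real.exp (-(η * τ)) := by gcongr
          _ = Real.exp (-(η / 2 * τ)) := by
              rw [← Real.exp_add]
              congr 1
              ring
      have h6 : Real.exp (-(c0 * τ)) ≤ Real.exp (-(c2 * τ)) := by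
        apply Real.exp_le_exp.2
        have := min_le_left c0 (η / 2)
        nlinarith
      have h7 : Real.exp (-(η / 2 * τ)) ≤ Real.exp (-(c2 * τ)) := by
        apply Real.exp_le_exp.2
        have := min_le_right c0 (η / 2)
        nlinarith
      calc P.real (E ((k, j), s)) ≤ Leb.real (E ((k, j), s)) +
            (b : ℝ) ^ ℓ * Real.exp (-(η * τ)) := h1
        _ ≤ C1 * Real.exp (-(c2 * τ)) + 1 * Real.exp (-(c2 * τ)) := by
            refine add_le_add (h4.trans ?_) (h5.trans ?_)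
            · gcongr
            · rw [one_mul]
              exact h7
        _ = (C1 + 1) * Real.exp (-(c2 * τ)) := by ring
    have hcard : (I.card : ℝ) ≤ nU * 2 * T := by
      have h1 : I.card ≤ ((Finset.Icc 1 w).card * (b ^ w)) * (⌊T⌋₊ + 1) := by
        refine (card_filter_le _ _).trans (le_of_eq ?_)
        rw [card_product, card_product, card_range, card_range]
      have h3 : ((Finset.Icc 1 w).card : ℝ) ≤ w + 1 := by
        rw [Nat.card_Icc]
        have : w + 1 - 1 ≤ w + 1 := Nat.sub_le _ _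
        exact_mod_cast this
      have h4 : (⌊T⌋₊ : ℝ) ≤ T := Nat.floor_le (by positivity)
      calc (I.card : ℝ) ≤ ((((Finset.Icc 1 w).card * (b ^ w)) * (⌊T⌋₊ + 1) : ℕ) : ℝ) := by
            exact_mod_cast h1
        _ = (((Finset.Icc 1 w).card : ℝ) * (b : ℝ) ^ w) * ((⌊T⌋₊ : ℝ) + 1) := by push_cast; ring
        _ ≤ ((w + 1) * (b : ℝ) ^ w) * (T + T) := by
            gcongr
        _ = nU * 2 * T := by
            rw [hnU]
            ring
    have h1 : P.real (⋃ q ∈ I, E q) ≤ ∑ q ∈ I, P.real (E q) := measureReal_biUnion_finset_le _ _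
    calc P.real (⋃ q ∈ I, E q) ≤ ∑ q ∈ I, P.real (E q) := h1
      _ ≤ ∑ _q ∈ I, (C1 + 1) * Real.exp (-(c2 * τ)) := sum_le_sum hone
      _ = I.card * ((C1 + 1) * Real.exp (-(c2 * τ))) := by rw [sum_const, nsmul_eq_mul]
      _ ≤ (nU * 2 * T) * ((C1 + 1) * Real.exp (-(c2 * τ))) := by
          refine mul_le_mul_of_nonneg_right hcard (by positivity)
      _ = T * (C3 * Real.exp (-(c2 * τ))) := by rw [hC3]; ring
      _ ≤ T * (Real.exp (c2 / 2 * τ) * Real.exp (-(c2 * τ))) := by gcongr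
      _ = T * Real.exp (-(c2 / 2 * τ)) := by
          rw [← Real.exp_add]
          congr 2
          ring
  · intro x hx k j s N hk hkw hj hsN
    have hkR : (1 : ℝ) ≤ k := by exact_mod_cast hk
    set L : ℕ := ℓ + 1 - k with hL
    have hL1 : 1 ≤ L := by omega
    have hLR : (L : ℝ) = ℓ + 1 - k := by
      rw [hL, Nat.cast_sub (by omega)]; push_cast; ring
    have hLR0 : (0 : ℝ) < L := by exact_mod_cast hL1
    have hLκ : (L : ℝ) ≤ κ * τ := by rw [hLR]; linarith
    have hdet := det_block (b := b) (k := k) (G := ci b k j) (L := L) (τ := ε * L)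
      (T := T) (x := x) (ci_le hb1 k j) hL1 (by positivity) (by
      intro s' hs' hmem
      apply hx
      rw [Set.mem_iUnion₂]
      refine ⟨((k, j), s'), ?_, hmem⟩
      rw [hI, mem_filter, mem_product, mem_product]
      refine ⟨⟨⟨mem_Icc.2 ⟨hk, hkw⟩, ?_⟩, ?_⟩, hj, hs'⟩
      · rw [mem_range]
        calc j < b ^ k := hj
          _ ≤ b ^ w := Nat.pow_le_pow_right (by omega) hkw
      · rw [mem_range, Nat.lt_succ_iff]
        exact Nat.le_floor hs') s N hsN
    refine hdet.trans ?_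
    have h1 : (N : ℝ) / L * (ε * L) = ε * N := by field_simp
    rw [h1]
    have h2 : κ * τ ≤ 1 * τ := by gcongr
    linarith

end Pool.Agent.N586.JT
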