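import Pool.Agent.N586.JT.Stm
import Pool.Agent.N586.AN.Fin3

/-!
# From pairs to algebraic numbers, for tuples
-/

set_option autoImplicit false

namespace Pool.Agent.N586.JT

open Finset Real Filter Polynomial
open Pool.Agent.Y933.KG (pol Om Alg)
open Pool.Agent.Y933.KD (wd)
open Pool.Agent.N586.AN (S_ALG exp_beats)

open Classical in
theorem t_finT (hN : S_NT) (hA : S_ALG) (q : ℕ) (δ β : ℝ) (hδ : 0 < δ) (hβ : 0 < β)
    (hδβ : 2 * δ + β < 1) (B w r : ℕ) (ε : ℝ) (hr : 1 ≤ r) (hε : 0 < ε) :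
    ∃ H₀ : ℕ, ∀ H : ℕ, H₀ ≤ H →
      (({x ∈ Alg (q + 2) H | ¬ ∀ (b : ℕ) (f : Fin r → ℤ[X]) (m : Fin r → ℕ), 2 ≤ b → b ≤ B →
        SmlT q β H f m → NwT b w ((Real.log H) ^ (1 + δ)) ε (ε * Real.log H)
          (fun j => aeval x (f j) / (m j : ℝ))}.ncard : ℕ) : ℝ) ≤
        Real.exp (-(Real.log H) ^ β) * ((Alg (q + 2) H).ncard : ℝ) := by
  obtain ⟨C, hC, H1, hH1⟩ := hA q
  obtain ⟨H2, hH2⟩ := hN q δ β hδ hβ hδβ B w r ε hr hε
  obtain ⟨H3, hH3⟩ := eventually_atTop.1 (exp_beats C β hβ)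
  refine ⟨max H1 (max H2 H3), fun H hH => ?_⟩
  have hHa := hH1 H (le_of_max_le_left hH)
  have hHb := hH2 H (le_of_max_le_left (le_of_max_le_right hH))
  have hHc := hH3 H (le_of_max_le_right (le_of_max_le_right hH))
  set S := {x ∈ Alg (q + 2) H | ¬ ∀ (b : ℕ) (f : Fin r → ℤ[X]) (m : Fin r → ℕ), 2 ≤ b → b ≤ B →
        SmlT q β H f m → NwT b w ((Real.log H) ^ (1 + δ)) ε (ε * Real.log H)
          (fun j => aeval x (f j) / (m j : ℝ))} with hS
  set O := (Om q H).filter (fun p => ¬ ∀ (b : ℕ) (f : Fin r → ℤ[X]) (m : Fin r → ℕ), 2 ≤ b →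
      b ≤ B → SmlT q β H f m → NwT b w ((Real.log H) ^ (1 + δ)) ε (ε * Real.log H)
        (fun j => aeval p.2.2 (f j) / (m j : ℝ))) with hO
  have hsub : S ⊆ ((O.image fun p => p.2.2 : Finset ℝ) : Set ℝ) := by
    rintro x ⟨hx, hbad⟩
    obtain ⟨p, hp, hpx⟩ := Pool.Agent.Y933.KG.Alg_sub q H hx
    rw [Finset.mem_coe, Finset.mem_image]
    refine ⟨p, ?_, hpx⟩
    rw [hO, Finset.mem_filter]
    refine ⟨hp, fun hcon => hbad ?_⟩
    intro b f m hb hbB hf
    have h1 := hcon b f m hb hbB hf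
    rwa [hpx] at h1
  have h1 : (S.ncard : ℝ) ≤ (O.card : ℝ) := by
    have h2 : S.ncard ≤ (O.image fun p => p.2.2).card := by
      rw [← Set.ncard_coe_finset]
      exact Set.ncard_le_ncard hsub (Finset.finite_toSet _)
    exact_mod_cast h2.trans Finset.card_image_le
  calc (S.ncard : ℝ) ≤ (O.card : ℝ) := h1
    _ ≤ (H : ℝ) ^ (q + 3) * Real.exp (-(2 * (Real.log H) ^ β)) := hHb
    _ ≤ (C * Real.log H * ((Alg (q + 2) H).ncard : ℝ)) * Real.exp (-(2 * (Real.log H) ^ β)) := by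
        gcongr
    _ = (C * Real.log H) * (((Alg (q + 2) H).ncard : ℝ) * Real.exp (-(2 * (Real.log H) ^ β))) := by
        ring
    _ ≤ Real.exp ((Real.log H) ^ β) *
        (((Alg (q + 2) H).ncard : ℝ) * Real.exp (-(2 * (Real.log H) ^ β))) := by gcongr
    _ = Real.exp ((Real.log H) ^ β) * Real.exp (-(2 * (Real.log H) ^ β)) *
        ((Alg (q + 2) H).ncard : ℝ) := by ring
    _ = _ := by
        rw [← Real.exp_add]
        congr 2
        ring

/-- linear independence of the values gives independence of the polynomials -/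
lemma indep {r : ℕ} (x : ℝ) (f : Fin r → ℤ[X]) (m : Fin r → ℕ) (hm : ∀ j, 1 ≤ m j)
    (h : LinearIndependent ℚ (Fin.cons (1 : ℝ) (fun j => aeval x (f j) / (m j : ℝ)) :
      Fin (r + 1) → ℝ)) (c : Fin r → ℤ) (hc : c ≠ 0) : 1 ≤ (∑ j, C (c j) * f j).natDegree := by
  by_contra hcon
  have h0 : (∑ j, C (c j) * f j).natDegree = 0 := by omega
  have h1 := eq_C_of_natDegree_eq_zero h0
  set e := (∑ j, C (c j) * f j).coeff 0 with he
  have h2 : ∑ j, (c j : ℝ) * aeval x (f j) = (e : ℝ) := by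
    have h3 := congrArg (fun p : ℤ[X] => aeval x p) h1
    simp only [map_sum, map_mul, aeval_C] at h3
    simpa using h3
  rw [Fintype.linearIndependent_iff] at h
  obtain ⟨j0, hj0⟩ : ∃ j, c j ≠ 0 := by
    by_contra h4
    push Not at h4
    exact hc (funext h4)
  have h5 := h (Fin.cons (-(e : ℚ)) (fun j => (c j : ℚ) * (m j : ℚ))) (by
    rw [Fin.sum_univ_succ]
    simp only [Fin.cons_zero, Fin.cons_succ]
    have h6 : ∀ j : Fin r, ((c j : ℚ) * (m j : ℚ)) • (aeval x (f j) / (m j : ℝ)) =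
        (c j : ℝ) * aeval x (f j) := by
      intro j
      have h7 : (m j : ℝ) ≠ 0 := by
        have := hm j
        positivity
      rw [Rat.smul_def]
      push_cast
      field_simp
    simp only [h6, h2]
    rw [Rat.smul_def]
    push_cast
    ring) j0.succ
  rw [Fin.cons_succ] at h5
  have h8 : (m j0 : ℚ) ≠ 0 := by
    have := hm j0
    positivity
  have h9 := mul_eq_zero.1 h5
  rcases h9 with h9 | h9
  · exact hj0 (by exact_mod_cast h9)
  · exact h8 h9

end Pool.Agent.N586.JT
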