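import Pool.Agent.N586.JT.Stm
import Pool.Agent.N586.AN.Nrm2

/-!
# Project JT: nearly all pairs are simultaneously normal, for all tuples at the same time (helper478)

This follows `Pool.Agent.N586.AN.Nrm` (helper26) and `Pool.Agent.N586.AN.Nrm2`.
-/

set_option autoImplicit false

namespace Pool.Agent.N586.JT

open Finset Real Filter Polynomial MeasureTheory
open Pool.Agent.Y933.KG (pol Om Av Alg card_Om_le Om_nonempty)
open Pool.Agent.Y933.KD (e wd)
open Pool.Agent.Y951.TU (hat lin lin_apply unif unif_prob integral_unif real_unif)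
open Pool.Agent.N586.RT (Fs mem_Fs card_Fs logpow log_ge)
open Pool.Agent.N586.AN (S_TOT2 Pr)

lemma nt_shift {r b w n0 : ℕ} {L ε E E' : ℝ} (hb : 1 ≤ b) (hn0 : (n0 : ℝ) ≤ E') (hε : 0 ≤ ε)
    {y : Fin r → ℝ} (h : NwT b w L ε E (fun j => (b : ℝ) ^ n0 * y j)) (hE : 0 ≤ E) :
    NwT b w L ε (E' + E) y := by
  classical
  intro k s N D hk hkw hD hsN
  have hbk : (1 : ℝ) ≤ ((b : ℝ) ^ k) ^ r := one_le_pow₀ (one_le_pow₀ (by exact_mod_cast hb))
  have hbk0 : (0 : ℝ) < ((b : ℝ) ^ k) ^ r := by linarith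
  obtain ⟨t, ht1, ht2, ht3⟩ : ∃ t : ℕ, t ≤ N ∧ t ≤ n0 ∧ (t < N → n0 ≤ s + t) := by
    refine ⟨min N (n0 - s), min_le_left _ _, ?_, ?_⟩
    · exact (min_le_right _ _).trans (Nat.sub_le _ _)
    · intro h
      omega
  obtain ⟨N', rfl⟩ : ∃ N', N = t + N' := ⟨N - t, by omega⟩
  have hcard : ((Finset.range (t + N')).filter (fun i => ∀ j, wd b k (s + i) (y j) = D j)).card =
      ((Finset.range t).filter (fun i => ∀ j, wd b k (s + i) (y j) = D j)).card +
      ((Finset.range N').filter (fun i => ∀ j, wd b k (s + t + i) (y j) = D j)).card := by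
    simp only [Finset.card_filter]
    rw [Finset.sum_range_add]
    simp only [add_assoc]
  have h1 : |(((Finset.range t).filter (fun i => ∀ j, wd b k (s + i) (y j) = D j)).card : ℝ) -
      t / ((b : ℝ) ^ k) ^ r| ≤ E' := by
    have h2 : (((Finset.range t).filter (fun i => ∀ j, wd b k (s + i) (y j) = D j)).card : ℝ) ≤
        t := by
      have := Finset.card_filter_le (Finset.range t) (fun i => ∀ j, wd b k (s + i) (y j) = D j)
      rw [Finset.card_range] at this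
      exact_mod_cast this
    have h3 : (t : ℝ) / ((b : ℝ) ^ k) ^ r ≤ t := div_le_self (Nat.cast_nonneg t) hbk
    have h4 : (0 : ℝ) ≤ (t : ℝ) / ((b : ℝ) ^ k) ^ r := by positivity
    have h5 : (0 : ℝ) ≤
        (((Finset.range t).filter (fun i => ∀ j, wd b k (s + i) (y j) = D j)).card : ℝ) :=
      Nat.cast_nonneg _
    have h6 : (t : ℝ) ≤ n0 := by exact_mod_cast ht2
    rw [abs_le]
    constructor <;> linarith
  have h2 : |(((Finset.range N').filter (fun i => ∀ j, wd b k (s + t + i) (y j) = D j)).card : ℝ) -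
      N' / ((b : ℝ) ^ k) ^ r| ≤ ε * N' + E := by
    rcases Nat.eq_zero_or_pos N' with rfl | hN'
    · simpa using hE
    · obtain ⟨s', hs'⟩ : ∃ s', s + t = n0 + s' := ⟨s + t - n0, by
        have := ht3 (by omega); omega⟩
      have h3 := h k s' N' D hk hkw hD (by
        have h4 : (s' : ℝ) ≤ s + t := by
          have : s' ≤ s + t := by omega
          exact_mod_cast this
        push_cast at hsN
        linarith)
      have h5 : (Finset.range N').filter
          (fun i => ∀ j, wd b k (s' + i) ((b : ℝ) ^ n0 * y j) = D j) =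
          (Finset.range N').filter (fun i => ∀ j, wd b k (s + t + i) (y j) = D j) := by
        refine Finset.filter_congr fun i _ => ?_
        refine forall_congr' fun j => ?_
        rw [Pool.Agent.Y933.KG.wd_shift, hs', add_assoc]
      rw [← h5]
      convert h3 using 5
  have hfin : |(((Finset.range (t + N')).filter
      (fun i => ∀ j, wd b k (s + i) (y j) = D j)).card : ℝ) -
      ((t + N' : ℕ) : ℝ) / ((b : ℝ) ^ k) ^ r| ≤ ε * ((t + N' : ℕ) : ℝ) + (E' + E) := by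
    rw [hcard]
    push_cast
    have e1 : (((Finset.range t).filter (fun i => ∀ j, wd b k (s + i) (y j) = D j)).card : ℝ) +
        (((Finset.range N').filter (fun i => ∀ j, wd b k (s + t + i) (y j) = D j)).card : ℝ) -
        ((t : ℝ) + N') / ((b : ℝ) ^ k) ^ r =
        ((((Finset.range t).filter (fun i => ∀ j, wd b k (s + i) (y j) = D j)).card : ℝ) -
          t / ((b : ℝ) ^ k) ^ r) +
        ((((Finset.range N').filter (fun i => ∀ j, wd b k (s + t + i) (y j) = D j)).card : ℝ) -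
          N' / ((b : ℝ) ^ k) ^ r) := by ring
    rw [e1]
    have h7 : 0 ≤ ε * t := by positivity
    calc _ ≤ E' + (ε * N' + E) := (abs_add_le _ _).trans (add_le_add h1 h2)
      _ ≤ _ := by linarith
  convert hfin using 5

lemma nt_pw {c : ℕ} (n : ℕ) (hc : 2 ≤ c) : (c : ℝ) ^ n = Real.exp (n * Real.log c) := by
  have hcR : (2 : ℝ) ≤ c := by exact_mod_cast hc
  rw [← Real.exp_log (by positivity : (0 : ℝ) < (c : ℝ) ^ n), Real.log_pow]

open Classical in
/-- one tuple and one base -/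
lemma nt_one (hT : S_TOT2) (hBT : S_BT) (q : ℕ) (δ δ' β' β2 : ℝ) (hδ : 0 < δ) (hδδ : δ < δ')
    (hβ' : 0 < β') (hββ : β' < β2) (hδβ : 2 * δ' + β2 < 1) (w r : ℕ) (hr : 1 ≤ r) (ε : ℝ)
    (hε : 0 < ε) (b : ℕ) (hb : 2 ≤ b) :
    ∃ c : ℝ, 0 < c ∧ ∃ H0 : ℕ, ∀ H : ℕ, H0 ≤ H → ∀ g : Fin r → ℝ[X],
    (∀ h : Fin r → ℤ, h ≠ 0 → (∀ j, |(h j : ℝ)| ≤ Real.exp ((Real.log H) ^ β')) →
      ∀ G : ℝ[X], G = ∑ j, C (h j : ℝ) * g j → 1 ≤ G.natDegree ∧ G.natDegree ≤ q + 1 ∧
      (∀ i, 1 ≤ i → |G.coeff i| ≤ Real.exp ((Real.log H) ^ β2)) ∧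
      Real.exp (-(Real.log H) ^ β2) ≤ |G.leadingCoeff|) →
      (((Om q H).filter (fun p => ¬ NwT b w ((Real.log H) ^ (1 + δ)) ε (ε * Real.log H)
        (fun j => (g j).eval p.2.2))).card : ℝ) ≤
        (Om q H).card * ((Real.log H) ^ (1 + δ) * Real.exp (-(c * (Real.log H) ^ β'))) := by
  have hδ' : 0 < δ' := by linarith
  have hTOT := hT q δ' β2 hδ' (by linarith) hδβ
  have hl2 : 0 < Real.log 2 := Real.log_pos (by norm_num)
  obtain ⟨N0, hN0⟩ := hTOT (ε / 4 * Real.log 2) (by positivity)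
  obtain ⟨c0, hc0, τ0, hτ0⟩ := hBT b w r (ε / 2) hb hr (by positivity)
  have hbR : (2 : ℝ) ≤ b := by exact_mod_cast hb
  obtain ⟨lB, hlB⟩ : ∃ lB : ℝ, lB = Real.log b := ⟨_, rfl⟩
  have hlB0 : 0 ≤ lB := by rw [hlB]; exact Real.log_nonneg (by linarith)
  obtain ⟨N1, hN1⟩ := eventually_atTop.1 ((((((logpow hβ' (τ0)).and
    (logpow (by linarith : β' < 1) (2 / ε))).and
    (logpow (by linarith : (1 + δ : ℝ) < 1 + δ') (lB + (ε / 4 + 1) * lB))).and
    (log_ge 1)).and (log_ge (4 / ε))).and (eventually_ge_atTop 2))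
  refine ⟨c0, hc0, max N0 N1, ?_⟩
  intro H hH g hg
  obtain ⟨⟨⟨⟨⟨h1, h2⟩, h3⟩, h4⟩, h5⟩, h6⟩ := hN1 H (le_of_max_le_right hH)
  have key := hN0 H (le_of_max_le_left hH)
  have hHR : (2 : ℝ) ≤ H := by exact_mod_cast h6
  have hHp : (0 : ℝ) < H := by linarith
  obtain ⟨L, hL⟩ : ∃ L : ℝ, L = Real.log H := ⟨_, rfl⟩
  rw [← hL] at h1 h2 h3 h4 h5 key hg ⊢
  rw [Real.rpow_zero, mul_one] at h1
  rw [Real.rpow_one] at h2
  have hL0 : 0 < L := by linarith
  set τ : ℝ := L ^ β' with hτ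
  have hτ0' : 0 ≤ τ := Real.rpow_nonneg hL0.le _
  have hτ2 : τ ≤ L ^ β2 := Real.rpow_le_rpow_of_exponent_le h4 hββ.le
  set T : ℝ := L ^ (1 + δ) with hT'
  have hT1 : 1 ≤ T := Real.one_le_rpow h4 (by positivity)
  have hTL : L ≤ T := by
    rw [hT']
    calc L = L ^ (1 : ℝ) := (Real.rpow_one L).symm
      _ ≤ _ := Real.rpow_le_rpow_of_exponent_le h4 (by linarith)
  set n0 : ℕ := ⌈ε / 4 * L⌉₊ with hn0
  have hn0a : ε / 4 * L ≤ n0 := Nat.le_ceil _
  have hn0b : (n0 : ℝ) ≤ ε / 4 * L + 1 := (Nat.ceil_lt_add_one (by positivity)).le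
  have hcard0 : (0 : ℝ) < ((Om q H).card : ℝ) := by
    exact_mod_cast (Om_nonempty q H h6).card_pos
  obtain ⟨U, hU, hPU, hx⟩ := hτ0 τ h1 T hT1
    (unif (Om q H) (fun p j => (b : ℝ) ^ n0 * (g j).eval p.2.2))
    (unif_prob (Om_nonempty q H h6) _)
    (fun n h hn hh hh2 => by
      obtain ⟨G, hG⟩ : ∃ G : ℝ[X], G = ∑ j, C (h j : ℝ) * g j := ⟨_, rfl⟩
      obtain ⟨hG1, hG2, hG3, hG4⟩ := hg h hh hh2 G hG
      have hb0 : (1 : ℝ) ≤ (b : ℝ) ^ n := one_le_pow₀ (by linarith)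
      have hθ : |(b : ℝ) ^ n * (b : ℝ) ^ n0| = (b : ℝ) ^ n * (b : ℝ) ^ n0 :=
        abs_of_nonneg (by positivity)
      have hθ1 : (H : ℝ) ^ (ε / 4 * Real.log 2) ≤ |(b : ℝ) ^ n * (b : ℝ) ^ n0| := by
        rw [hθ]
        have e1 : (H : ℝ) ^ (ε / 4 * Real.log 2) = (2 : ℝ) ^ (ε / 4 * L) := by
          rw [Real.rpow_def_of_pos hHp, Real.rpow_def_of_pos (by norm_num), hL]
          congr 1
          ring
        have e2 : (2 : ℝ) ^ (ε / 4 * L) ≤ (b : ℝ) ^ n0 := by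
          calc (2 : ℝ) ^ (ε / 4 * L) ≤ (2 : ℝ) ^ ((n0 : ℕ) : ℝ) :=
                Real.rpow_le_rpow_of_exponent_le (by norm_num) hn0a
            _ = (2 : ℝ) ^ n0 := Real.rpow_natCast _ _
            _ ≤ _ := by gcongr
        rw [e1]
        refine e2.trans ?_
        have e4 : (0 : ℝ) ≤ (b : ℝ) ^ n0 := by positivity
        nlinarith
      have hθ2 : |(b : ℝ) ^ n * (b : ℝ) ^ n0| ≤ Real.exp (L ^ (1 + δ')) := by
        rw [hθ, nt_pw n hb, nt_pw n0 hb, ← hlB, ← Real.exp_add]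
        apply Real.exp_le_exp.2
        have g1 : (n : ℝ) * lB ≤ T * lB := by gcongr
        have g2 : (n0 : ℝ) * lB ≤ ((ε / 4 + 1) * T) * lB := by
          refine mul_le_mul_of_nonneg_right ?_ hlB0
          nlinarith
        have g3 : (lB + (ε / 4 + 1) * lB) * T = T * lB + ((ε / 4 + 1) * T) * lB := by
          ring
        linarith
      have h7 := key G hG1 hG2 hG3 hG4 _ hθ1 hθ2
      unfold hat
      rw [integral_unif]
      have e1 : ∑ p ∈ Om q H, e (lin r (fun j => h j * (b : ℤ) ^ n)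
          (fun j => (b : ℝ) ^ n0 * (g j).eval p.2.2)) =
          ∑ p ∈ Om q H, e ((b : ℝ) ^ n * (b : ℝ) ^ n0 * G.eval p.2.2) := by
        refine sum_congr rfl fun p _ => ?_
        congr 1
        rw [lin_apply, hG, eval_finsetSum, mul_sum]
        refine sum_congr rfl fun j _ => ?_
        rw [eval_mul, eval_C]
        push_cast
        ring
      rw [e1, norm_mul, norm_div, norm_one, Complex.norm_natCast, one_div,
        inv_mul_le_iff₀ hcard0]
      refine h7.trans ?_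
      exact mul_le_mul_of_nonneg_left (Real.exp_le_exp.2 (by linarith)) hcard0.le)
  rw [real_unif _ _ hU, div_le_iff₀ hcard0, mul_comm _ ((Om q H).card : ℝ)] at hPU
  refine le_trans ?_ hPU
  refine Nat.cast_le.2 (Finset.card_le_card fun p hp => ?_)
  rw [Finset.mem_filter] at hp ⊢
  refine ⟨hp.1, ?_⟩
  by_contra hpU
  apply hp.2
  have h10 := nt_shift (y := fun j => (g j).eval p.2.2) (by omega) hn0b (by positivity)
    (hx _ hpU) hτ0'
  intro k s N D hk hkw hD hsN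
  refine (h10 k s N D hk hkw hD hsN).trans ?_
  have h11 : ε / 2 * (N : ℝ) ≤ ε * N := by
    have : (0 : ℝ) ≤ N := Nat.cast_nonneg _
    nlinarith
  have h12 : τ ≤ ε / 2 * L := by
    have e1 : ε / 2 * (2 / ε * τ) = τ := by field_simp
    have e2 := mul_le_mul_of_nonneg_left h2 (by positivity : 0 ≤ ε / 2)
    linarith
  have h13 : 1 ≤ ε / 4 * L := by
    rw [div_le_iff₀ hε] at h5
    linarith
  linarith

/-- the combinations of the polynomials -/
lemma nt_lin {q r : ℕ} {V W : ℝ} (_hV0 : 0 < V) {f : Fin r → ℤ[X]} {m : Fin r → ℕ}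
    (hf1 : ∀ j, (f j).natDegree < q + 2) (hf2 : ∀ j i, |((f j).coeff i : ℝ)| ≤ V)
    (hm1 : ∀ j, 1 ≤ m j) (hm2 : ∀ j, (m j : ℝ) ≤ V)
    (hc : ∀ c : Fin r → ℤ, c ≠ 0 → 1 ≤ (∑ j, C (c j) * f j).natDegree)
    {h : Fin r → ℤ} (hh : h ≠ 0) (hW : ∀ j, |(h j : ℝ)| ≤ W) {G : ℝ[X]}
    (hG : G = ∑ j, C (h j : ℝ) * (C (1 / (m j : ℝ)) * (f j).map (Int.castRingHom ℝ))) :
    1 ≤ G.natDegree ∧ G.natDegree ≤ q + 1 ∧ (∀ i, |G.coeff i| ≤ r * (W * V)) ∧
      (V ^ r)⁻¹ ≤ |G.leadingCoeff| := by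
  classical
  have hm0 : ∀ j, (0 : ℝ) < m j := fun j => by exact_mod_cast (hm1 j)
  obtain ⟨M, hM⟩ : ∃ M : ℝ, M = ∏ j, (m j : ℝ) := ⟨_, rfl⟩
  have hM0 : 0 < M := by rw [hM]; exact prod_pos fun j _ => hm0 j
  have hMV : M ≤ V ^ r := by
    rw [hM]
    calc ∏ j, (m j : ℝ) ≤ ∏ _j : Fin r, V := prod_le_prod (fun j _ => (hm0 j).le) fun j _ => hm2 j
      _ = V ^ r := by rw [prod_const, card_univ, Fintype.card_fin]
  obtain ⟨c, hcd⟩ : ∃ c : Fin r → ℤ, c = fun j => h j * ∏ i ∈ univ.erase j, (m i : ℤ) := ⟨_, rfl⟩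
  have hcj : ∀ j, (c j : ℝ) = h j / m j * M := by
    intro j
    have e1 : M = m j * ∏ i ∈ univ.erase j, (m i : ℝ) := by
      rw [hM, mul_prod_erase univ (fun i => (m i : ℝ)) (mem_univ j)]
    have e2 := (hm0 j).ne'
    rw [hcd, e1]
    push_cast
    field_simp
  have hc0 : c ≠ 0 := by
    obtain ⟨j, hj⟩ := Function.ne_iff.1 hh
    intro h0
    have e1 := hcj j
    rw [h0] at e1
    simp only [Pi.zero_apply, Int.cast_zero] at e1
    have e2 : (h j : ℝ) / m j * M ≠ 0 := by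
      refine mul_ne_zero (div_ne_zero ?_ (hm0 j).ne') hM0.ne'
      exact_mod_cast hj
    exact e2 e1.symm
  obtain ⟨D, hD⟩ : ∃ D : ℤ[X], D = ∑ j, C (c j) * f j := ⟨_, rfl⟩
  have hD1 : 1 ≤ D.natDegree := by rw [hD]; exact hc c hc0
  have hD2 : D.natDegree ≤ q + 1 := by
    rw [hD]
    refine natDegree_sum_le_of_forall_le _ _ fun j _ => ?_
    exact (natDegree_C_mul_le _ _).trans (by have := hf1 j; omega)
  have hGD : G = C (1 / M) * D.map (Int.castRingHom ℝ) := by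
    rw [hG, hD, Polynomial.map_sum, mul_sum]
    refine sum_congr rfl fun j _ => ?_
    rw [Polynomial.map_mul, Polynomial.map_C, ← mul_assoc, ← mul_assoc, ← C_mul, ← C_mul]
    congr 2
    rw [eq_intCast, hcj]
    field_simp
  have hGc : ∀ i, G.coeff i = (D.coeff i : ℝ) / M := by
    intro i
    rw [hGD, coeff_C_mul, coeff_map, eq_intCast]
    ring
  have hGdeg : G.natDegree = D.natDegree := by
    rw [hGD, natDegree_C_mul (by positivity), natDegree_map_eq_of_injective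
      (RingHom.injective_int (Int.castRingHom ℝ))]
  refine ⟨by rw [hGdeg]; exact hD1, by rw [hGdeg]; exact hD2, fun i => ?_, ?_⟩
  · rw [hG, finsetSum_coeff]
    refine (abs_sum_le_sum_abs _ _).trans ?_
    calc ∑ j, |(C (h j : ℝ) * (C (1 / (m j : ℝ)) * (f j).map (Int.castRingHom ℝ))).coeff i|
        ≤ ∑ _j : Fin r, W * V := by
          refine sum_le_sum fun j _ => ?_
          rw [coeff_C_mul, coeff_C_mul, coeff_map, eq_intCast, abs_mul, abs_mul]
          have e1 : |1 / (m j : ℝ)| ≤ 1 := by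
            rw [abs_of_pos (by have := hm0 j; positivity), div_le_one (hm0 j)]
            exact_mod_cast hm1 j
          have e2 : |1 / (m j : ℝ)| * |((f j).coeff i : ℝ)| ≤ V := by
            calc _ ≤ 1 * |((f j).coeff i : ℝ)| := by gcongr
              _ ≤ V := by rw [one_mul]; exact hf2 j i
          exact mul_le_mul (hW j) e2 (by positivity) ((abs_nonneg _).trans (hW j))
      _ = r * (W * V) := by rw [sum_const, card_univ, Fintype.card_fin, nsmul_eq_mul]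
  · rw [leadingCoeff, hGdeg, hGc, abs_div, abs_of_pos hM0]
    have h1 : (1 : ℝ) ≤ |(D.coeff D.natDegree : ℝ)| := by
      have h2 : D.coeff D.natDegree ≠ 0 := by
        rw [coeff_natDegree, Ne, leadingCoeff_eq_zero]
        intro h
        rw [h, natDegree_zero] at hD1
        omega
      have h3 : (1 : ℤ) ≤ |D.coeff D.natDegree| := Int.one_le_abs h2
      exact_mod_cast h3
    calc (V ^ r)⁻¹ ≤ M⁻¹ := by gcongr
      _ = 1 / M := by rw [one_div]
      _ ≤ _ := by gcongr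

open Classical in
/-- all bases at the same time -/
lemma nt_bases (hT : S_TOT2) (hBT : S_BT) (q : ℕ) (δ δ' β' β2 : ℝ) (hδ : 0 < δ) (hδδ : δ < δ')
    (hβ' : 0 < β') (hββ : β' < β2) (hδβ : 2 * δ' + β2 < 1) (w r : ℕ) (hr : 1 ≤ r) (ε : ℝ)
    (hε : 0 < ε) (B : ℕ) :
    ∃ c : ℝ, 0 < c ∧ ∃ H0 : ℕ, ∀ H : ℕ, H0 ≤ H → ∀ b : ℕ, 2 ≤ b → b ≤ B → ∀ g : Fin r → ℝ[X],
    (∀ h : Fin r → ℤ, h ≠ 0 → (∀ j, |(h j : ℝ)| ≤ Real.exp ((Real.log H) ^ β')) →
      ∀ G : ℝ[X], G = ∑ j, C (h j : ℝ) * g j → 1 ≤ G.natDegree ∧ G.natDegree ≤ q + 1 ∧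
      (∀ i, 1 ≤ i → |G.coeff i| ≤ Real.exp ((Real.log H) ^ β2)) ∧
      Real.exp (-(Real.log H) ^ β2) ≤ |G.leadingCoeff|) →
      (((Om q H).filter (fun p => ¬ NwT b w ((Real.log H) ^ (1 + δ)) ε (ε * Real.log H)
        (fun j => (g j).eval p.2.2))).card : ℝ) ≤
        (Om q H).card * ((Real.log H) ^ (1 + δ) * Real.exp (-(c * (Real.log H) ^ β'))) := by
  induction B with
  | zero => exact ⟨1, one_pos, 0, fun H _ b hb hb0 => by omega⟩
  | succ B ih =>
    obtain ⟨c, hc, H0, hH0⟩ := ih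
    rcases Nat.lt_or_ge (B + 1) 2 with hB | hB
    · exact ⟨1, one_pos, 0, fun H _ b hb hb0 => by omega⟩
    · obtain ⟨c', hc', H0', hH0'⟩ := nt_one hT hBT q δ δ' β' β2 hδ hδδ hβ' hββ hδβ w r hr ε hε
        (B + 1) hB
      refine ⟨min c c', lt_min hc hc', max H0 H0', fun H hH b hb hbB g hg => ?_⟩
      have hlog : (0 : ℝ) ≤ Real.log H := Real.log_natCast_nonneg H
      have hmono : ∀ c'' : ℝ, min c c' ≤ c'' →
          ((Om q H).card : ℝ) * ((Real.log H) ^ (1 + δ) * Real.exp (-(c'' * (Real.log H) ^ β'))) ≤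
          (Om q H).card * ((Real.log H) ^ (1 + δ) *
            Real.exp (-(min c c' * (Real.log H) ^ β'))) := by
        intro c'' hc''
        have e1 : (0 : ℝ) ≤ (Real.log H) ^ β' := Real.rpow_nonneg hlog _
        have e2 : (0 : ℝ) ≤ (Real.log H) ^ (1 + δ) := Real.rpow_nonneg hlog _
        refine mul_le_mul_of_nonneg_left (mul_le_mul_of_nonneg_left ?_ e2) (Nat.cast_nonneg _)
        apply Real.exp_le_exp.2
        have := mul_le_mul_of_nonneg_right hc'' e1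
        linarith
      rcases Nat.lt_or_ge b (B + 1) with hlt | hge
      · exact (hH0 H (le_of_max_le_left hH) b hb (by omega) g hg).trans (hmono c (min_le_left _ _))
      · obtain rfl : b = B + 1 := by omega
        exact (hH0' H (le_of_max_le_right hH) g hg).trans (hmono c' (min_le_right _ _))

open Classical in
/-- **J3** -/
theorem nt (h : S_TOT2) (h2 : S_BT) : S_NT := by
  intro q δ β hδ hβ hδβ B w r ε hr hε
  obtain ⟨γ, hγ⟩ : ∃ γ : ℝ, γ = (1 - 2 * δ - β) / 8 := ⟨_, rfl⟩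
  have hγ0 : 0 < γ := by rw [hγ]; linarith
  obtain ⟨β', hβ'⟩ : ∃ β' : ℝ, β' = β + γ := ⟨_, rfl⟩
  obtain ⟨β2, hβ2⟩ : ∃ β2 : ℝ, β2 = β + 2 * γ := ⟨_, rfl⟩
  have hββ : β < β' := by linarith
  have hββ2 : β' < β2 := by linarith
  obtain ⟨c0, hc0, M1, hM1⟩ := nt_bases h h2 q δ (δ + γ) β' β2 hδ (by linarith) (by linarith)
    hββ2 (by rw [hβ2, hγ]; linarith) w r hr ε hε B
  have hqR : (0 : ℝ) ≤ q := Nat.cast_nonneg q
  have hrR : (1 : ℝ) ≤ r := by exact_mod_cast hr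
  set K0 : ℝ := Real.log ((B + 1) * (3 ^ (q + 3) * (q + 2))) with hK0
  have hK0a : (1 : ℝ) ≤ (B + 1) * (3 ^ (q + 3) * (q + 2)) := by
    have e1 : (1 : ℝ) ≤ 3 ^ (q + 3) := one_le_pow₀ (by norm_num)
    have e2 : (0 : ℝ) ≤ B := Nat.cast_nonneg _
    have e3 : (1 : ℝ) ≤ 3 ^ (q + 3) * (q + 2) := by nlinarith
    nlinarith
  have hK0b : 0 ≤ K0 := Real.log_nonneg hK0a
  obtain ⟨M2, hM2⟩ := eventually_atTop.1 ((((((logpow hββ
    ((K0 + (2 * q + 5) * r + (1 + δ) + 2) / c0)).and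
    (log_ge 1)).and (eventually_ge_atTop 2)).and
    (logpow hβ 2)).and (logpow hββ2 (r + 2))).and (logpow (by linarith : β < β2) r))
  -- `log log H ≤ (log H) ^ β`
  have hll : ∀ᶠ M : ℕ in atTop, Real.log (Real.log M) ≤ (Real.log M) ^ β := by
    have hlog : Tendsto (fun N : ℕ => Real.log (N : ℝ)) atTop atTop :=
      Real.tendsto_log_atTop.comp tendsto_natCast_atTop_atTop
    have h1 := (isLittleO_log_rpow_atTop hβ).bound
      (by norm_num : (0 : ℝ) < 1)
    filter_upwards [hlog.eventually h1, log_ge 1] with M h2 h3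
    rw [one_mul, Real.norm_eq_abs, Real.norm_eq_abs] at h2
    rw [abs_of_nonneg (Real.rpow_nonneg (by linarith) _)] at h2
    exact (le_abs_self _).trans h2
  obtain ⟨M3, hM3⟩ := eventually_atTop.1 hll
  refine ⟨max (max M1 M2) M3, fun H hH => ?_⟩
  have hHM1 : M1 ≤ H := le_of_max_le_left (le_of_max_le_left hH)
  obtain ⟨⟨⟨⟨⟨hb, hL1⟩, hH2⟩, hv⟩, hu⟩, hu2⟩ := hM2 H (le_of_max_le_right (le_of_max_le_left hH))
  have hc := hM3 H (le_of_max_le_right hH)
  have hG := hM1 H hHM1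
  have hHR : (2 : ℝ) ≤ H := by exact_mod_cast hH2
  have hHp : (0 : ℝ) < H := by linarith
  have hOm := card_Om_le q H (by omega)
  unfold SmlT
  obtain ⟨L, hL⟩ : ∃ L : ℝ, L = Real.log H := ⟨_, rfl⟩
  rw [← hL] at hb hL1 hc hG hv hu hu2 ⊢
  rw [Real.rpow_zero, mul_one] at hv
  have hL0 : 0 < L := by linarith
  obtain ⟨V, hV⟩ : ∃ V : ℝ, V = Real.exp (L ^ β) := ⟨_, rfl⟩
  have hLL : L ^ β ≤ L ^ β' := Real.rpow_le_rpow_of_exponent_le hL1 hββ.le
  rw [← hV]
  have hV1 : 1 ≤ V := by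
    rw [hV]
    exact Real.one_le_exp (by positivity)
  have hV0 : 0 < V := by linarith
  have h3V : 3 * V ≤ V ^ 2 := by
    have h1 : (3 : ℝ) ≤ V := by
      rw [hV]
      have := Real.add_one_le_exp (L ^ β)
      linarith
    nlinarith
  set τ : ℝ := L ^ β' with hτ
  have hτ1 : 1 ≤ τ := Real.one_le_rpow hL1 (by linarith)
  set T : ℝ := L ^ (1 + δ) with hT'
  have hT1 : 1 ≤ T := Real.one_le_rpow hL1 (by positivity)
  set R : ℝ := (Om q H).card * (T * Real.exp (-(c0 * τ))) with hR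
  have hR0 : 0 ≤ R := by positivity
  set S : Finset (((Fin r → ℤ[X]) × (Fin r → ℕ)) × ℕ) :=
    ((Fintype.piFinset fun _ => Fs (q + 1) ⌊V⌋) ×ˢ
      (Fintype.piFinset fun _ => Finset.Icc 1 ⌊V⌋₊)) ×ˢ Finset.range (B + 1) with hS
  set bad : ((Fin r → ℤ[X]) × (Fin r → ℕ)) × ℕ → Finset (Pr q) := fun z =>
    (Om q H).filter (fun p =>
      ((∀ j, (z.1.1 j).natDegree < q + 2) ∧ (∀ j i, |((z.1.1 j).coeff i : ℝ)| ≤ V) ∧
        (∀ j, 1 ≤ z.1.2 j) ∧ (∀ j, (z.1.2 j : ℝ) ≤ V) ∧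
        ∀ c : Fin r → ℤ, c ≠ 0 → 1 ≤ (∑ j, C (c j) * z.1.1 j).natDegree) ∧ 2 ≤ z.2 ∧ z.2 ≤ B ∧
      ¬ NwT z.2 w T ε (ε * L) (fun j => aeval p.2.2 (z.1.1 j) / (z.1.2 j : ℝ))) with hbad
  have hsub : (Om q H).filter (fun p => ¬ ∀ (b : ℕ) (f : Fin r → ℤ[X]) (m : Fin r → ℕ), 2 ≤ b →
      b ≤ B → ((∀ j, (f j).natDegree < q + 2) ∧ (∀ j i, |((f j).coeff i : ℝ)| ≤ V) ∧
        (∀ j, 1 ≤ m j) ∧ (∀ j, (m j : ℝ) ≤ V) ∧
        ∀ c : Fin r → ℤ, c ≠ 0 → 1 ≤ (∑ j, C (c j) * f j).natDegree) →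
      NwT b w T ε (ε * L) (fun j => aeval p.2.2 (f j) / (m j : ℝ))) ⊆ S.biUnion bad := by
    intro p hp
    rw [Finset.mem_filter] at hp
    obtain ⟨hp1, hp2⟩ := hp
    simp only [not_forall] at hp2
    obtain ⟨b, f, m, hb2, hbB, hsml, hno⟩ := hp2
    rw [Finset.mem_biUnion]
    refine ⟨((f, m), b), ?_, ?_⟩
    · rw [hS, Finset.mem_product, Finset.mem_product]
      refine ⟨⟨?_, ?_⟩, ?_⟩
      · rw [Fintype.mem_piFinset]
        intro j
        refine mem_Fs (by have := hsml.1 j; simp only; omega) fun i => Int.le_floor.2 ?_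
        push_cast
        exact hsml.2.1 j i
      · rw [Fintype.mem_piFinset]
        intro j
        rw [Finset.mem_Icc]
        exact ⟨hsml.2.2.1 j, Nat.le_floor (hsml.2.2.2.1 j)⟩
      · rw [Finset.mem_range]
        simp only
        omega
    · rw [hbad]
      simp only [Finset.mem_filter]
      exact ⟨hp1, hsml, hb2, hbB, hno⟩
  have hone : ∀ z ∈ S, ((bad z).card : ℝ) ≤ R := by
    intro z _
    by_cases hz : ((∀ j, (z.1.1 j).natDegree < q + 2) ∧
        (∀ j i, |((z.1.1 j).coeff i : ℝ)| ≤ V) ∧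
        (∀ j, 1 ≤ z.1.2 j) ∧ (∀ j, (z.1.2 j : ℝ) ≤ V) ∧
        ∀ c : Fin r → ℤ, c ≠ 0 → 1 ≤ (∑ j, C (c j) * z.1.1 j).natDegree) ∧ 2 ≤ z.2 ∧ z.2 ≤ B
    · obtain ⟨⟨hz1, hz2, hz3, hz4, hz5⟩, hz6, hz7⟩ := hz
      have key := hG z.2 hz6 hz7
        (fun j => C (1 / (z.1.2 j : ℝ)) * (z.1.1 j).map (Int.castRingHom ℝ))
        (by
          intro h hh hhW G hGd
          obtain ⟨g1, g2, g3, g4⟩ := nt_lin hV0 hz1 hz2 hz3 hz4 hz5 hh hhW hGd
          refine ⟨g1, g2, fun i _ => (g3 i).trans ?_, le_trans ?_ g4⟩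
          · have e1 : (r : ℝ) ≤ Real.exp r := by
              have := Real.add_one_le_exp (r : ℝ)
              linarith
            calc (r : ℝ) * (Real.exp τ * V) ≤ Real.exp r * (Real.exp τ * V) := by gcongr
              _ = Real.exp (r + (τ + L ^ β)) := by
                rw [hV, Real.exp_add, Real.exp_add]
              _ ≤ _ := by
                apply Real.exp_le_exp.2
                have e2 : (r : ℝ) ≤ r * τ := le_mul_of_one_le_right (by linarith) hτ1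
                linarith
          · have e1 : (V ^ r)⁻¹ = Real.exp (-(r * L ^ β)) := by
              rw [hV, ← Real.exp_nat_mul, Real.exp_neg]
            rw [e1]
            apply Real.exp_le_exp.2
            linarith)
      refine le_trans (Nat.cast_le.2 (Finset.card_le_card fun p hp => ?_)) key
      rw [hbad] at hp
      simp only [Finset.mem_filter] at hp
      rw [Finset.mem_filter]
      refine ⟨hp.1, fun hcon => hp.2.2.2.2 ?_⟩
      have h2 : (fun j => (C (1 / (z.1.2 j : ℝ)) * (z.1.1 j).map (Int.castRingHom ℝ)).eval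
          p.2.2) = fun j => aeval p.2.2 (z.1.1 j) / (z.1.2 j : ℝ) := by
        funext j
        rw [eval_mul, eval_C, eval_map, aeval_def]
        have : (algebraMap ℤ ℝ) = Int.castRingHom ℝ := rfl
        rw [this]
        ring
      rwa [h2] at hcon
    · have h1 : bad z = ∅ := by
        rw [hbad]
        simp only
        rw [Finset.filter_eq_empty_iff]
        rintro p _ ⟨h2, h3, h4, _⟩
        exact hz ⟨h2, h3, h4⟩
      rw [h1, Finset.card_empty, Nat.cast_zero]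
      exact hR0
  have hScard : ((S.card : ℕ) : ℝ) ≤ (B + 1) * V ^ ((2 * q + 5) * r) := by
    rw [hS, Finset.card_product, Finset.card_product, Fintype.card_piFinset_const,
      Fintype.card_piFinset_const, Nat.card_Icc, Nat.add_sub_cancel, Finset.card_range]
    push_cast
    have h1 := card_Fs (q + 1) (Int.floor_nonneg.2 (by linarith : (0 : ℝ) ≤ V))
    have h2 := Nat.floor_le (by linarith : (0 : ℝ) ≤ V)
    have h3 := Int.floor_le V
    have h0 : (0 : ℝ) ≤ (⌊V⌋ : ℝ) := by exact_mod_cast Int.floor_nonneg.2 (by linarith : (0 : ℝ) ≤ V)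
    calc ((Fs (q + 1) ⌊V⌋).card : ℝ) ^ r * (⌊V⌋₊ : ℝ) ^ r * (B + 1)
        ≤ ((2 * (⌊V⌋ : ℝ) + 1) ^ (q + 1 + 1)) ^ r * V ^ r * (B + 1) := by
          gcongr
      _ ≤ ((V ^ 2) ^ (q + 1 + 1)) ^ r * V ^ r * (B + 1) := by
          have : 2 * (⌊V⌋ : ℝ) + 1 ≤ V ^ 2 := by linarith
          gcongr
      _ = _ := by ring
  have hfin : (B + 1) * V ^ ((2 * q + 5) * r) *
      ((3 ^ (q + 3) * (q + 2)) * (T * Real.exp (-(c0 * τ)))) ≤ Real.exp (-(2 * L ^ β)) := by
    have e1 : V ^ ((2 * q + 5) * r) = Real.exp ((2 * q + 5) * r * L ^ β) := by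
      rw [hV, ← Real.exp_nat_mul]
      congr 1
      push_cast
      ring
    have e2 : T = Real.exp ((1 + δ) * Real.log L) := by
      rw [hT', Real.rpow_def_of_pos hL0]
      congr 1
      ring
    have e3 : ((B : ℝ) + 1) * (3 ^ (q + 3) * (q + 2)) = Real.exp K0 := by
      rw [hK0, Real.exp_log (by linarith)]
    calc (B + 1) * V ^ ((2 * q + 5) * r) *
        ((3 ^ (q + 3) * (q + 2)) * (T * Real.exp (-(c0 * τ))))
        = ((B : ℝ) + 1) * (3 ^ (q + 3) * (q + 2)) * V ^ ((2 * q + 5) * r) * T *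
          Real.exp (-(c0 * τ)) := by
          ring
      _ = Real.exp (K0 + (2 * q + 5) * r * L ^ β + (1 + δ) * Real.log L + -(c0 * τ)) := by
          rw [e3, e1, e2, ← Real.exp_add, ← Real.exp_add, ← Real.exp_add]
      _ ≤ _ := by
          apply Real.exp_le_exp.2
          have h1 : (1 + δ) * Real.log L ≤ (1 + δ) * L ^ β := by gcongr
          have h2 : (K0 + (2 * q + 5) * r + (1 + δ) + 2) * L ^ β ≤ c0 * τ := by
            have h3 : (K0 + (2 * q + 5) * r + (1 + δ) + 2) * L ^ β =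
                c0 * ((K0 + (2 * q + 5) * r + (1 + δ) + 2) / c0 * L ^ β) := by
              field_simp
            rw [h3]
            exact mul_le_mul_of_nonneg_left hb hc0.le
          have h4 : (1 : ℝ) ≤ L ^ β := Real.one_le_rpow hL1 hβ.le
          have h5 : K0 ≤ K0 * L ^ β := le_mul_of_one_le_right hK0b h4
          linarith
  calc _ ≤ ((S.biUnion bad).card : ℝ) := by exact_mod_cast Finset.card_le_card hsub
    _ ≤ ∑ z ∈ S, ((bad z).card : ℝ) := by exact_mod_cast Finset.card_biUnion_le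
    _ ≤ ∑ _z ∈ S, R := sum_le_sum hone
    _ = (S.card : ℝ) * R := by rw [sum_const, nsmul_eq_mul]
    _ ≤ ((B + 1) * V ^ ((2 * q + 5) * r)) *
        ((3 ^ (q + 3) * (q + 2) * (H : ℝ) ^ (q + 3)) * (T * Real.exp (-(c0 * τ)))) := by
        rw [hR]
        gcongr
    _ = (H : ℝ) ^ (q + 3) * ((B + 1) * V ^ ((2 * q + 5) * r) *
        ((3 ^ (q + 3) * (q + 2)) * (T * Real.exp (-(c0 * τ))))) := by ring
    _ ≤ _ := by gcongr

end Pool.Agent.N586.JT

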